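import Pool.Agent.H65.PK.Targets

set_option autoImplicit false

open Polynomial Module Filter Topology Pool.Agent.H65.PK
open Pool.Agent.H18.TD (AO Rep Un vl aux th der tc om gam T_VLP T_TCB)
open Pool.Agent.H72.HR (T_PIG)

namespace Pool.Agent.H64.PKER

/-- powers of small numbers -/
theorem auk_npow (x Λ c0 : ℝ) (hx : 1 ≤ x) (hc0 : 1 ≤ c0) (q n : ℕ)
    (hn : (n : ℝ) * (1 + Real.log x) ≤ Λ) :
    (c0 * x ^ q) ^ n ≤ Real.exp ((Real.log c0 + q) * Λ) := by
  have h3 : 0 ≤ Real.log x := Real.log_nonneg hx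
  have hpos : 0 < c0 * x ^ q := by positivity
  have hlc : 0 ≤ Real.log c0 := Real.log_nonneg hc0
  have h5 : (c0 * x ^ q) ^ n = Real.exp (n * (Real.log c0 + q * Real.log x)) := by
    rw [← Real.log_pow, ← Real.log_mul (by positivity) (by positivity), Real.exp_nat_mul,
      Real.exp_log hpos]
  rw [h5]
  refine Real.exp_le_exp.mpr ?_
  have hq0 : (0:ℝ) ≤ q := by positivity
  calc (n:ℝ) * (Real.log c0 + q * Real.log x)
      ≤ n * ((Real.log c0 + q) * (1 + Real.log x)) := by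
        refine mul_le_mul_of_nonneg_left ?_ (by positivity)
        nlinarith [mul_nonneg hlc h3]
    _ = (Real.log c0 + q) * (n * (1 + Real.log x)) := by ring
    _ ≤ _ := mul_le_mul_of_nonneg_left hn (by positivity)

theorem auk_pow (x Λ : ℝ) (hx : 1 ≤ x) (hΛ : Real.log x ≤ Λ) (E : ℕ) :
    x ^ E ≤ Real.exp (E * Λ) := by
  have h5 : x ^ E = Real.exp (E * Real.log x) := by
    rw [mul_comm, Real.exp_mul, Real.exp_log (by linarith), Real.rpow_natCast]
  rw [h5]
  exact Real.exp_le_exp.mpr (mul_le_mul_of_nonneg_left hΛ (by positivity))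

/-- sums over the indices in the box -/
theorem auk_sum {Ω A : Type} [Fintype Ω] [AddCommMonoid A] (P : Ω → Prop) [Fintype {u // P u}]
    (f : Ω → A) (hf : ∀ u, ¬ P u → f u = 0) : ∑ u, f u = ∑ u : {u // P u}, f u.1 := by
  classical
  rw [← Finset.sum_filter_add_sum_filter_not Finset.univ P f]
  rw [show (∑ u ∈ Finset.univ.filter (fun u => ¬ P u), f u) = 0 from
    Finset.sum_eq_zero fun u hu => hf u (Finset.mem_filter.1 hu).2, add_zero]
  exact Finset.sum_subtype (Finset.univ.filter P) (by simp) f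

theorem pf_AUK : T_PIG → T_VLP → T_TCB → T_SMR → T_GRO → T_AUK := by
  intro hPIG hVLP hTCB hSMR hGRO t r l c X Y ω υ κ K g hK hg hrl hκ
  classical
  -- constants
  set C1 : ℝ := 1 + (∑ p, ∑ i, ‖X p i‖) + ∑ i, ∑ j, ‖Y i j‖ with hC1
  have hX : ∀ p i, ‖X p i‖ ≤ C1 := by
    intro p i
    have h1 : ‖X p i‖ ≤ ∑ p, ∑ i, ‖X p i‖ :=
      (Finset.single_le_sum (f := fun i => ‖X p i‖) (fun _ _ => norm_nonneg _)
        (Finset.mem_univ i)).trans (Finset.single_le_sum (f := fun p => ∑ i, ‖X p i‖)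
        (fun _ _ => Finset.sum_nonneg fun _ _ => norm_nonneg _) (Finset.mem_univ p))
    have h2 : 0 ≤ ∑ i, ∑ j, ‖Y i j‖ :=
      Finset.sum_nonneg fun _ _ => Finset.sum_nonneg fun _ _ => norm_nonneg _
    linarith
  have hYb : ∀ i j, ‖Y i j‖ ≤ C1 := by
    intro p i
    have h1 : ‖Y p i‖ ≤ ∑ p, ∑ i, ‖Y p i‖ :=
      (Finset.single_le_sum (f := fun i => ‖Y p i‖) (fun _ _ => norm_nonneg _)
        (Finset.mem_univ i)).trans (Finset.single_le_sum (f := fun p => ∑ i, ‖Y p i‖)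
        (fun _ _ => Finset.sum_nonneg fun _ _ => norm_nonneg _) (Finset.mem_univ p))
    have h2 : 0 ≤ ∑ p, ∑ i, ‖X p i‖ :=
      Finset.sum_nonneg fun _ _ => Finset.sum_nonneg fun _ _ => norm_nonneg _
    linarith
  have hC1' : 1 ≤ C1 := by
    have h1 : 0 ≤ ∑ i, ∑ j, ‖Y i j‖ :=
      Finset.sum_nonneg fun _ _ => Finset.sum_nonneg fun _ _ => norm_nonneg _
    have h2 : 0 ≤ ∑ p, ∑ i, ‖X p i‖ :=
      Finset.sum_nonneg fun _ _ => Finset.sum_nonneg fun _ _ => norm_nonneg _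
    linarith
  set W : ℕ := ∑ a, ω a with hW
  set Υ : ℕ := ∑ j, υ j with hΥ
  set c0 : ℝ := 1 + c * C1 * (r + l) with hc0
  have hc0' : 1 ≤ c0 := by
    have : 0 ≤ (c:ℝ) * C1 * (r + l) := by positivity
    linarith
  set T : ℝ := max 1 ‖t‖ with hT
  have hT1 : 1 ≤ T := le_max_left _ _
  have hTt : ‖t‖ ≤ T := le_max_right _ _
  set K1 : ℝ := Real.log c0 + (2 + Υ : ℕ) with hK1
  set K2 : ℝ := c0 * (l * C1) with hK2
  set C3 : ℝ := r * (K1 + K2) + Real.log T with hC3
  set E0 : ℕ := W + Υ + κ with hE0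
  set E : ℕ := (2 + κ) * (r + 1) + (1 + W) * l with hE
  set C4 : ℝ := r * ((r + l) * (Real.log (r + l + 1) + (2 + κ : ℕ))) with hC4
  set C5 : ℝ := C3 + C4 + E + (2 * r + 6) with hC5
  have hK10 : 0 ≤ K1 := by
    have : 0 ≤ Real.log c0 := Real.log_nonneg hc0'
    positivity
  have hK20 : 0 ≤ K2 := by positivity
  have hC30 : 0 ≤ C3 := by
    have : 0 ≤ Real.log T := Real.log_nonneg hT1
    positivity
  have hC40 : 0 ≤ C4 := by
    have h0 : (0:ℝ) ≤ r := by positivity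
    have h1 : (0:ℝ) ≤ l := by positivity
    have : 0 ≤ Real.log ((r:ℝ) + l + 1) := Real.log_nonneg (by linarith)
    positivity
  have hC50 : 0 ≤ C5 := by positivity
  obtain ⟨h1, hh13, hGR⟩ := hGRO K g hK hg C5 (E0 + 1)
  obtain ⟨h2, hlarge⟩ := hg.large (8 * 4 ^ r)
  refine ⟨max h1 (max h2 4), fun h hh => ?_⟩
  have hh1 : h1 ≤ h := le_trans (le_max_left _ _) hh
  have hh2 : 8 * 4 ^ r ≤ g h := hlarge h (((le_max_left _ _).trans (le_max_right _ _)).trans hh)
  have hh4 : 4 ≤ h := ((le_max_right _ _).trans (le_max_right _ _)).trans hh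
  have hh3 : 3 ≤ h := by omega
  have hhpos : 0 < h := by omega
  have hgpos : 1 ≤ g h := hg.one h
  set G : ℕ := g h with hG
  set x : ℝ := (h : ℝ) with hx
  have hx4 : 4 ≤ x := by rw [hx]; exact_mod_cast hh4
  have hx1 : 1 ≤ x := by linarith
  have hG1 : (1:ℝ) ≤ G := by exact_mod_cast hgpos
  have hlog1 : 1 ≤ Real.log x := by
    have h3 : Real.exp 1 ≤ x := by
      have := Real.exp_one_lt_d9
      linarith
    calc (1:ℝ) = Real.log (Real.exp 1) := (Real.log_exp 1).symm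
      _ ≤ Real.log x := Real.log_le_log (Real.exp_pos 1) h3
  have hlogx : Real.log x ≤ x := (Real.log_le_sub_one_of_pos (by linarith)).trans (by linarith)
  have hGx : (G:ℝ) ≤ x := by
    have h3 := hg.log h hh3
    have h4 : (G:ℝ) ≤ (G:ℝ) ^ K := by
      calc (G:ℝ) = (G:ℝ) ^ 1 := (pow_one _).symm
        _ ≤ (G:ℝ) ^ K := pow_le_pow_right₀ hG1 hK
    exact (h4.trans h3).trans hlogx
  set δ : ℕ := dl g κ h with hδ
  set T1 : ℕ := tl g W h with hT1d
  have hδx : (δ : ℝ) = x ^ 2 * (G:ℝ) ^ κ := by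
    rw [hδ]; unfold dl; push_cast; rfl
  have htlx : ∀ w : ℕ, (tl g w h : ℝ) = x * (G:ℝ) ^ w := by
    intro w; unfold tl; push_cast; rfl
  have hGp : ∀ n : ℕ, 1 ≤ (G:ℝ) ^ n := fun n => one_le_pow₀ hG1
  have hδpos : 1 ≤ δ := by
    rw [hδ]; unfold dl
    exact Nat.one_le_iff_ne_zero.2 (by positivity)
  have hT1pos : 1 ≤ T1 := by
    rw [hT1d]; unfold tl
    exact Nat.one_le_iff_ne_zero.2 (by positivity)
  have hδle : (δ:ℝ) ≤ x ^ (2 + κ) := by
    rw [hδx, pow_add]
    exact mul_le_mul_of_nonneg_left (pow_le_pow_left₀ (by linarith) hGx κ) (by positivity)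
  have hT1le : (T1:ℝ) ≤ x ^ (1 + W) := by
    rw [hT1d, htlx, pow_add, pow_one]
    exact mul_le_mul_of_nonneg_left (pow_le_pow_left₀ (by linarith) hGx W) (by positivity)
  -- the basic quantity
  set Λ : ℝ := x ^ 3 * (G:ℝ) ^ E0 * (1 + Real.log x) with hΛ
  have hx3 : x ^ 2 ≤ x ^ 3 := pow_le_pow_right₀ hx1 (by norm_num)
  have hΛδ : (δ:ℝ) * (1 + Real.log x) ≤ Λ := by
    rw [hΛ, hδx]
    refine mul_le_mul_of_nonneg_right ?_ (by linarith)
    exact mul_le_mul hx3 (pow_le_pow_right₀ hG1 (by omega)) (by positivity) (by positivity)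
  have hδ1 : (1:ℝ) ≤ δ := by exact_mod_cast hδpos
  have hlp : 1 ≤ 1 + Real.log x := by linarith
  have hΛ1 : 1 ≤ Λ := (one_le_mul_of_one_le_of_one_le hδ1 hlp).trans hΛδ
  have hΛlog : Real.log x ≤ Λ := by
    have h3 : 1 + Real.log x ≤ δ * (1 + Real.log x) := le_mul_of_one_le_left (by linarith) hδ1
    linarith
  have hΛδ2 : (δ:ℝ) ≤ Λ :=
    (le_mul_of_one_le_right (by linarith) hlp).trans hΛδ
  have hΛδ3 : (δ:ℝ) * Real.log x ≤ Λ :=
    (mul_le_mul_of_nonneg_left (by linarith) (by linarith)).trans hΛδ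
  set H : ℝ := G * (δ:ℝ) ^ 2 * Real.log x with hH
  have hH0 : 0 ≤ H := by positivity
  have hC5Λ : C5 * Λ ≤ H := by
    have h3 := hGR h hh1
    have h4 : (G:ℝ) ^ E0 * (1 + Real.log x) ≤ (G:ℝ) ^ (E0 + 1) * (1 + Real.log x) ^ (E0 + 1) := by
      refine mul_le_mul (pow_le_pow_right₀ hG1 (by omega)) ?_ (by linarith) (by positivity)
      calc 1 + Real.log x = (1 + Real.log x) ^ 1 := (pow_one _).symm
        _ ≤ _ := pow_le_pow_right₀ (by linarith) (by omega)
    calc C5 * Λ = x ^ 3 * (C5 * ((G:ℝ) ^ E0 * (1 + Real.log x))) := by rw [hΛ]; ring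
      _ ≤ x ^ 3 * (C5 * ((G:ℝ) ^ (E0 + 1) * (1 + Real.log x) ^ (E0 + 1))) := by gcongr
      _ ≤ x ^ 3 * x := mul_le_mul_of_nonneg_left h3 (by positivity)
      _ = 1 * (x ^ 2 * 1) ^ 2 * 1 := by ring
      _ ≤ H := by
          rw [hH, hδx]
          gcongr
          exact hGp κ
  -- the radius
  set R : ℝ := c0 * (x * (G:ℝ) ^ Υ) with hR
  have hxG : 1 ≤ x * (G:ℝ) ^ Υ := one_le_mul_of_one_le_of_one_le hx1 (hGp Υ)
  have hR1 : 1 ≤ R := one_le_mul_of_one_le_of_one_le hc0' hxG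
  have hxR : x * R ≤ c0 * x ^ (2 + Υ) := by
    have h3 : (G:ℝ) ^ Υ ≤ x ^ Υ := pow_le_pow_left₀ (by linarith) hGx Υ
    calc x * R = c0 * (x ^ 2 * (G:ℝ) ^ Υ) := by rw [hR]; ring
      _ ≤ c0 * (x ^ 2 * x ^ Υ) := by gcongr
      _ = _ := by rw [pow_add]
  have hxR0 : 0 ≤ x * R := by positivity
  have hth : ∀ (ν : Fin l → Fin T1) (i : Fin r), ‖th X ν i‖ ≤ l * C1 * (x * (G:ℝ) ^ W) := by
    intro ν i
    unfold th
    calc ‖∑ p, ((ν p : ℕ) : ℂ) * X p i‖ ≤ ∑ p, ‖((ν p : ℕ) : ℂ) * X p i‖ := norm_sum_le _ _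
      _ ≤ ∑ _p : Fin l, (x * (G:ℝ) ^ W) * C1 := by
          refine Finset.sum_le_sum fun p _ => ?_
          rw [norm_mul, Complex.norm_natCast]
          refine mul_le_mul ?_ (hX p i) (norm_nonneg _) (by positivity)
          rw [← htlx]
          exact_mod_cast (ν p).2.le
      _ = _ := by
          rw [Finset.sum_const, Finset.card_univ, Fintype.card_fin, nsmul_eq_mul]; ring
  have hfac : ∀ (w : Un r l δ T1 δ) (i : Fin r),
      (x * R) ^ ((w.1 i : ℕ)) * Real.exp (x * R * ‖th X w.2.1 i‖) ≤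
        Real.exp ((K1 + K2) * Λ) := by
    intro w i
    have h2 : (x * R) ^ ((w.1 i : ℕ)) ≤ Real.exp (K1 * Λ) := by
      have h3 := auk_npow x Λ c0 hx1 hc0' (2 + Υ) (w.1 i : ℕ) (by
        have h4 : ((w.1 i : ℕ) : ℝ) ≤ δ := by exact_mod_cast (w.1 i).2.le
        exact (mul_le_mul_of_nonneg_right h4 (by linarith)).trans hΛδ)
      exact (pow_le_pow_left₀ hxR0 hxR _).trans h3
    have h4 : x * R * ‖th X w.2.1 i‖ ≤ K2 * Λ := by
      calc x * R * ‖th X w.2.1 i‖ ≤ x * R * (l * C1 * (x * (G:ℝ) ^ W)) :=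
            mul_le_mul_of_nonneg_left (hth _ _) hxR0
        _ = K2 * (x ^ 3 * (G:ℝ) ^ (W + Υ) * 1) := by rw [hR, hK2, pow_add]; ring
        _ ≤ K2 * Λ := by
            refine mul_le_mul_of_nonneg_left ?_ hK20
            rw [hΛ]
            refine mul_le_mul ?_ (by linarith) zero_le_one (by positivity)
            exact mul_le_mul_of_nonneg_left (pow_le_pow_right₀ hG1 (by omega)) (by positivity)
    calc _ ≤ Real.exp (K1 * Λ) * Real.exp (K2 * Λ) :=
          mul_le_mul h2 (Real.exp_le_exp.mpr h4) (by positivity) (by positivity)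
      _ = _ := by rw [← Real.exp_add]; ring_nf
  have htp : ∀ j : ℕ, j ≤ δ → ‖t‖ ^ j ≤ Real.exp (Real.log T * Λ) := by
    intro j hj
    have h3 := auk_npow x Λ T hx1 hT1 0 j (by
        have h4 : (j : ℝ) ≤ δ := by exact_mod_cast hj
        exact (mul_le_mul_of_nonneg_right h4 (by linarith)).trans hΛδ)
    rw [pow_zero, mul_one, Nat.cast_zero, add_zero] at h3
    exact (pow_le_pow_left₀ (norm_nonneg _) hTt j).trans h3
  set Yb : ℝ := Real.exp (C3 * Λ) with hYbd
  have hYb1 : 1 ≤ Yb := Real.one_le_exp (by positivity)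
  have hprodfac : ∀ (w : Un r l δ T1 δ),
      ‖t‖ ^ ((w.2.2 : ℕ)) * ∏ i, ((x * R) ^ ((w.1 i : ℕ)) *
        Real.exp (x * R * ‖th X w.2.1 i‖)) ≤ Yb := by
    intro w
    calc _ ≤ Real.exp (Real.log T * Λ) * ∏ _i : Fin r, Real.exp ((K1 + K2) * Λ) :=
          mul_le_mul (htp _ w.2.2.2.le) (Finset.prod_le_prod (fun i _ => by positivity)
            fun i _ => hfac w i) (Finset.prod_nonneg fun i _ => by positivity) (by positivity)
      _ = Yb := by
          rw [Finset.prod_const, Finset.card_univ, Fintype.card_fin, ← Real.exp_nat_mul,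
            ← Real.exp_add, hYbd, hC3]
          ring_nf
  -- the box
  set P : Un r l δ T1 δ → Prop := fun u => ∀ a, ((u.2.1 a : Fin T1) : ℕ) < tl g (ω a) h with hP
  set N : ℕ := Fintype.card {u : Un r l δ T1 δ // P u} with hN
  have htlW : ∀ a, tl g (ω a) h ≤ T1 := by
    intro a
    rw [hT1d]
    unfold tl
    exact Nat.mul_le_mul_left _ (Nat.pow_le_pow_right hgpos
      (by rw [hW]; exact Finset.single_le_sum (fun _ _ => Nat.zero_le _) (Finset.mem_univ a)))
  have hNlow : δ ^ (r + 1) * (h ^ l * G ^ W) ≤ N := by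
    let f : ((Fin r → Fin δ) × ((a : Fin l) → Fin (tl g (ω a) h)) × Fin δ) →
        {u : Un r l δ T1 δ // P u} := fun u =>
      ⟨(u.1, fun a => Fin.castLE (htlW a) (u.2.1 a), u.2.2), fun a => by
        simp⟩
    have hf : Function.Injective f := by
      intro u v huv
      have e := congrArg Subtype.val huv
      have e1 : u.1 = v.1 := congrArg (fun z : Un r l δ T1 δ => z.1) e
      have e2 : u.2.2 = v.2.2 := congrArg (fun z : Un r l δ T1 δ => z.2.2) e
      have e3 : ∀ a, Fin.castLE (htlW a) (u.2.1 a) = Fin.castLE (htlW a) (v.2.1 a) := fun a =>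
        congrArg (fun z : Un r l δ T1 δ => z.2.1 a) e
      have e4 : u.2.1 = v.2.1 := funext fun a => Fin.castLE_injective _ (e3 a)
      exact Prod.ext e1 (Prod.ext e4 e2)
    have h3 := Fintype.card_le_of_injective f hf
    refine le_trans (le_of_eq ?_) h3
    simp only [Fintype.card_prod, Fintype.card_pi, Fintype.card_fin, Finset.prod_const,
      Finset.card_univ]
    unfold tl
    rw [Finset.prod_mul_distrib, Finset.prod_const, Finset.card_univ, Fintype.card_fin,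
      Finset.prod_pow_eq_pow_sum]
    rw [pow_succ]
    ring
  have hNup : (N : ℝ) ≤ x ^ E := by
    have h3 : N ≤ δ ^ (r + 1) * T1 ^ l := by
      refine (Fintype.card_subtype_le _).trans (le_of_eq ?_)
      simp only [Un, Fintype.card_prod, Fintype.card_pi, Fintype.card_fin, Finset.prod_const,
        Finset.card_univ]
      rw [pow_succ]
      ring
    calc (N:ℝ) ≤ (δ:ℝ) ^ (r + 1) * (T1:ℝ) ^ l := by exact_mod_cast h3
      _ ≤ (x ^ (2 + κ)) ^ (r + 1) * (x ^ (1 + W)) ^ l := by gcongr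
      _ = x ^ E := by rw [← pow_mul, ← pow_mul, ← pow_add]
  -- the pigeonhole
  set V' : ℕ := 4 * (G * δ ^ 2) with hV'
  set av : (Fin r → Fin V') → {u : Un r l δ T1 δ // P u} → ℂ := fun κ w =>
    t ^ (w.1.2.2 : ℕ) * (∏ i, tc (w.1.1 i) (th X w.1.2.1 i) (κ i)) *
      ((x * R : ℝ) : ℂ) ^ (∑ i, (κ i : ℕ)) with hav
  have hnav : ∀ (κ : Fin r → ℕ) (w : Un r l δ T1 δ),
      ‖t‖ ^ (w.2.2 : ℕ) * (∏ i, ‖tc (w.1 i) (th X w.2.1 i) (κ i)‖) *
      (x * R) ^ (∑ i, (κ i : ℕ)) ≤ Yb := by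
    intro κ w
    calc ‖t‖ ^ (w.2.2 : ℕ) * (∏ i, ‖tc (w.1 i) (th X w.2.1 i) (κ i)‖) *
          (x * R) ^ (∑ i, (κ i : ℕ))
        = ‖t‖ ^ (w.2.2 : ℕ) * ∏ i, (‖tc (w.1 i) (th X w.2.1 i) (κ i)‖ * (x * R) ^ (κ i)) := by
          rw [Finset.prod_mul_distrib, Finset.prod_pow_eq_pow_sum]; ring
      _ ≤ ‖t‖ ^ (w.2.2 : ℕ) * ∏ i, ((x * R) ^ ((w.1 i : ℕ)) *
          Real.exp (x * R * ‖th X w.2.1 i‖)) :=
          mul_le_mul_of_nonneg_left (Finset.prod_le_prod (fun i _ => by positivity)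
            fun i _ => hTCB _ _ _ _ hxR0) (by positivity)
      _ ≤ Yb := hprodfac w
  have hcardV : Fintype.card (Fin r → Fin V') = V' ^ r := by simp
  have hV'pos : 0 < V' := by positivity
  have hKp : 1 ≤ 3 * (G * δ) := by
    have : 1 ≤ G * δ := Nat.one_le_iff_ne_zero.2 (by positivity)
    omega
  have hcount : 2 * ((3 * (G * δ)) + 1) * Fintype.card (Fin r → Fin V') ≤
      Fintype.card {u : Un r l δ T1 δ // P u} := by
    refine le_trans ?_ hNlow
    rw [hcardV, hV', mul_pow, mul_pow, ← pow_mul]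
    have h2 : 1 ≤ G * δ := Nat.one_le_iff_ne_zero.2 (by positivity)
    have hδr : δ ^ r = h ^ (2 * r) * G ^ (κ * r) := by
      rw [hδ]; unfold dl; rw [mul_pow, ← pow_mul, ← pow_mul]
    calc 2 * (3 * (G * δ) + 1) * (4 ^ r * (G ^ r * δ ^ (2 * r)))
        ≤ 8 * (G * δ) * (4 ^ r * (G ^ r * δ ^ (2 * r))) :=
          Nat.mul_le_mul_right _ (by omega)
      _ = (8 * 4 ^ r) * (G ^ (r + 1) * δ ^ (r + 1) * δ ^ r) := by
          rw [show 2 * r = r + r from by ring, pow_add δ r r, pow_succ, pow_succ]; ring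
      _ = (8 * 4 ^ r) * (G ^ (r + 1 + κ * r) * δ ^ (r + 1) * h ^ (2 * r)) := by
          rw [hδr, pow_add G (r + 1)]; ring
      _ ≤ G * (G ^ (r + 1 + κ * r) * δ ^ (r + 1) * h ^ (2 * r)) := Nat.mul_le_mul_right _ hh2
      _ = δ ^ (r + 1) * (h ^ (2 * r) * G ^ (κ * r + r + 2)) := by
          rw [show κ * r + r + 2 = (r + 1 + κ * r) + 1 from by ring, pow_succ G]; ring
      _ ≤ δ ^ (r + 1) * (h ^ l * G ^ W) := by
          refine Nat.mul_le_mul_left _ (Nat.mul_le_mul ?_ ?_)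
          · exact Nat.pow_le_pow_right hhpos hrl
          · exact Nat.pow_le_pow_right hgpos hκ
  obtain ⟨p', Z, hp0, hZ1, hpZ, hZK, hpf⟩ := hPIG {u : Un r l δ T1 δ // P u}
    (Fin r → Fin V') av Yb (Real.exp (2 * H)) (3 * (G * δ)) hYb1
    (Real.one_le_exp (by positivity)) hKp (by rw [hcardV]; positivity) (by
      intro κ w
      rw [hav]
      simp only [norm_mul, norm_pow, norm_prod, Complex.norm_real, Real.norm_eq_abs,
        Complex.ofReal_mul]
      rw [abs_of_nonneg (show (0:ℝ) ≤ x by linarith), abs_of_nonneg (show (0:ℝ) ≤ R by linarith)]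
      exact hnav (fun i => (κ i : ℕ)) w.1) hcount
  have hcN : (Fintype.card {u : Un r l δ T1 δ // P u} : ℝ) = N := rfl
  rw [hcN] at hZK hpf
  have hxE : (N:ℝ) ≤ Real.exp (E * Λ) := hNup.trans (auk_pow x Λ hx1 hΛlog E)
  have hN0 : (0:ℝ) ≤ N := Nat.cast_nonneg _
  set B : ℝ := δ * Real.log x with hB
  have hZ : Z ≤ Real.exp B := by
    by_contra hcon
    push Not at hcon
    have h2 : Real.exp B ^ (3 * (G * δ)) < Z ^ (3 * (G * δ)) :=
      pow_lt_pow_left₀ hcon (by positivity) (by omega)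
    have h3 : Real.exp B ^ (3 * (G * δ)) = Real.exp (3 * H) := by
      rw [← Real.exp_nat_mul]
      congr 1
      rw [hH, hB]
      push_cast
      ring
    have h4 : 4 * (N : ℝ) * (Real.exp (2 * H) * Yb) ≤ Real.exp (3 * H) := by
      have h5 : (4:ℝ) ≤ Real.exp (4 * Λ) := by
        have := Real.add_one_le_exp (4 * Λ)
        linarith
      calc 4 * (N:ℝ) * (Real.exp (2 * H) * Yb)
          ≤ Real.exp (4 * Λ) * Real.exp (E * Λ) * (Real.exp (2 * H) * Real.exp (C3 * Λ)) := by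
            gcongr
        _ = Real.exp ((4 + E + C3) * Λ + 2 * H) := by
            rw [← Real.exp_add, ← Real.exp_add, ← Real.exp_add]; ring_nf
        _ ≤ Real.exp (3 * H) := by
            refine Real.exp_le_exp.mpr ?_
            have h6 : (4 + E + C3) * Λ ≤ C5 * Λ := by
              refine mul_le_mul_of_nonneg_right ?_ (by linarith)
              rw [hC5]
              have : (0:ℝ) ≤ r := by positivity
              linarith
            linarith
    linarith [h3 ▸ h2]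
  -- the extension by zero
  set p : Un r l δ T1 δ → ℤ := fun u => if hu : P u then p' ⟨u, hu⟩ else 0 with hp
  have hpin : ∀ u : {u : Un r l δ T1 δ // P u}, p u.1 = p' u := by
    intro u
    rw [hp]
    simp only
    rw [dif_pos u.2]
  have hpout : ∀ u, ¬ P u → p u = 0 := by
    intro u hu
    rw [hp]
    simp only
    rw [dif_neg hu]
  refine ⟨p, ?_, ?_, ?_, fun τ hτ s hs => ?_⟩
  · intro h0
    apply hp0
    funext u
    rw [← hpin u, h0]
    rfl
  · intro u hu
    by_contra hcon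
    exact hu (hpout u hcon)
  · intro u
    by_cases hu : P u
    · have := hpin ⟨u, hu⟩
      rw [this]
      exact (hpZ _).trans hZ
    · rw [hpout u hu]
      simp only [Int.cast_zero, abs_zero]
      positivity
  rw [hVLP]
  rw [auk_sum P _ (fun u hu => by rw [hpout u hu]; simp)]
  simp only [hpin]
  set ε : ℝ := 4 * N * Z / Real.exp (2 * H) with hε
  have hε0 : 0 ≤ ε := by positivity
  have hSM := hSMR r {u : Un r l δ T1 δ // P u}
    (fun w => (p' w : ℂ) * t ^ (w.1.2.2 : ℕ)) (fun w i => (w.1.1 i : ℕ))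
    (fun w i => th X w.1.2.1 i)
    τ (fun i => ∑ j, Y i j * (s j : ℂ)) R x ε (N * Real.exp B * Yb) V' hR1 hx4 hε0
    (by
      intro i
      calc ‖∑ j, Y i j * (s j : ℂ)‖ ≤ ∑ j, ‖Y i j * (s j : ℂ)‖ := norm_sum_le _ _
        _ ≤ ∑ _j : Fin c, C1 * ((r + l) * (x * (G:ℝ) ^ Υ)) := by
            refine Finset.sum_le_sum fun j _ => ?_
            rw [norm_mul]
            refine mul_le_mul (hYb i j) ?_ (norm_nonneg _) (by positivity)
            rw [Complex.norm_intCast, abs_of_nonneg (by exact_mod_cast (hs j).1)]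
            have h3 : ((s j : ℤ) : ℝ) ≤ (r + l) * (tl g (υ j) h : ℝ) := by
              exact_mod_cast (hs j).2
            refine h3.trans ?_
            rw [htlx]
            refine mul_le_mul_of_nonneg_left ?_ (by positivity)
            refine mul_le_mul_of_nonneg_left ?_ (by positivity)
            exact pow_le_pow_right₀ hG1 (by
              rw [hΥ]; exact Finset.single_le_sum (fun _ _ => Nat.zero_le _) (Finset.mem_univ j))
        _ = c * C1 * (r + l) * (x * (G:ℝ) ^ Υ) := by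
            rw [Finset.sum_const, Finset.card_univ, Fintype.card_fin, nsmul_eq_mul]; ring
        _ ≤ R := by
            rw [hR]
            exact mul_le_mul_of_nonneg_right (by rw [hc0]; linarith) (by positivity))
    (by
      intro κ hκ
      have h2 := hpf (fun i => ⟨κ i, hκ i⟩)
      rw [hav] at h2
      simp only at h2
      rw [hε, le_div_iff₀ (Real.exp_pos _), mul_comm _ (Real.exp (2 * H))]
      refine le_trans (le_of_eq ?_) h2
      congr 1
      have h3 : ‖∑ w : {u : Un r l δ T1 δ // P u}, (p' w : ℂ) * t ^ (w.1.2.2 : ℕ) *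
          ∏ i, tc (w.1.1 i) (th X w.1.2.1 i) (κ i)‖ * (x * R) ^ (∑ i, κ i) =
          ‖(∑ w : {u : Un r l δ T1 δ // P u}, (p' w : ℂ) * t ^ (w.1.2.2 : ℕ) *
          ∏ i, tc (w.1.1 i) (th X w.1.2.1 i) (κ i)) * ((x * R : ℝ) : ℂ) ^ (∑ i, κ i)‖ := by
        rw [norm_mul, norm_pow, Complex.norm_real, Real.norm_eq_abs,
          abs_of_nonneg hxR0]
      rw [h3, Finset.sum_mul]
      congr 1
      refine Finset.sum_congr rfl fun w _ => ?_
      ring)
    (by
      calc _ ≤ ∑ _w : {u : Un r l δ T1 δ // P u}, Real.exp B * Yb := by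
            refine Finset.sum_le_sum fun w _ => ?_
            rw [norm_mul, norm_pow, Complex.norm_intCast, mul_assoc]
            exact mul_le_mul ((hpZ w).trans hZ) (hprodfac w.1) (by
              refine mul_nonneg (by positivity) (Finset.prod_nonneg fun i _ => by positivity))
              (by positivity)
        _ = N * Real.exp B * Yb := by
            rw [Finset.sum_const, Finset.card_univ, nsmul_eq_mul]
            ring)
  refine hSM.trans ?_
  have hr0 : (0:ℝ) ≤ r := by positivity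
  have hl0 : (0:ℝ) ≤ l := by positivity
  have hΛ0 : 0 ≤ Λ := by linarith
  -- the factorials
  have hτf : ∏ i, ((τ i).factorial : ℝ) ≤ Real.exp (C4 * Λ) := by
    have h2 : ∀ i, ((τ i).factorial : ℝ) ≤
        Real.exp ((r + l) * ((Real.log (r + l + 1) + (2 + κ : ℕ)) * Λ)) := by
      intro i
      have h3 : (τ i).factorial ≤ ((r + l) * δ) ^ ((r + l) * δ) :=
        (Nat.factorial_le (hτ i)).trans (Nat.factorial_le_pow _)
      have h4 : ((τ i).factorial : ℝ) ≤
          ((((r:ℝ) + l + 1) * x ^ (2 + κ)) ^ δ) ^ (r + l) := by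
        calc ((τ i).factorial : ℝ) ≤ (((r:ℝ) + l) * δ) ^ ((r + l) * δ) := by
              exact_mod_cast h3
          _ ≤ (((r:ℝ) + l + 1) * x ^ (2 + κ)) ^ ((r + l) * δ) :=
              pow_le_pow_left₀ (by positivity) (mul_le_mul (by linarith) hδle (by positivity)
                (by positivity)) _
          _ = _ := by rw [← pow_mul]; congr 1; ring
      have h5 : (((r:ℝ) + l + 1) * x ^ (2 + κ)) ^ δ ≤
          Real.exp ((Real.log ((r:ℝ) + l + 1) + (2 + κ : ℕ)) * Λ) :=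
        auk_npow x Λ ((r:ℝ) + l + 1) hx1 (by linarith) (2 + κ) δ hΛδ
      refine h4.trans ((pow_le_pow_left₀ (by positivity) h5 _).trans (le_of_eq ?_))
      rw [← Real.exp_nat_mul]
      push_cast
      rfl
    calc ∏ i, ((τ i).factorial : ℝ) ≤
          ∏ _i : Fin r, Real.exp ((r + l) * ((Real.log (r + l + 1) + (2 + κ : ℕ)) * Λ)) :=
          Finset.prod_le_prod (fun i _ => by positivity) fun i _ => h2 i
      _ = Real.exp (C4 * Λ) := by
          rw [Finset.prod_const, Finset.card_univ, Fintype.card_fin, ← Real.exp_nat_mul, hC4]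
          ring_nf
  have h2r : (2:ℝ) ^ r ≤ Real.exp (r * Λ) := by
    have h3 : (2:ℝ) ≤ Real.exp Λ := by
      have := Real.add_one_le_exp Λ
      linarith
    calc (2:ℝ) ^ r ≤ Real.exp Λ ^ r := pow_le_pow_left₀ (by norm_num) h3 _
      _ = _ := by rw [← Real.exp_nat_mul]
  have h1r : 1 + (r:ℝ) ≤ Real.exp (r * Λ) := by
    have h3 := Real.add_one_le_exp (r * Λ)
    have h4 : (r:ℝ) ≤ r * Λ := le_mul_of_one_le_right hr0 hΛ1
    linarith
  have hhalf : (2 / x : ℝ) ^ V' ≤ Real.exp (-(2 * H)) := by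
    have hx0 : 0 < x := by linarith
    have h3 : (2 / x : ℝ) ^ 4 ≤ Real.exp (-(2 * Real.log x)) := by
      have e1 : Real.exp (-(2 * Real.log x)) = (x ^ 2)⁻¹ := by
        rw [Real.exp_neg, show 2 * Real.log x = Real.log (x ^ 2) from by
          rw [Real.log_pow]; push_cast; ring, Real.exp_log (by positivity)]
      rw [e1, div_pow, div_le_iff₀ (by positivity)]
      have e2 : (x ^ 2)⁻¹ * x ^ 4 = x ^ 2 := by field_simp
      rw [e2]
      have e3 : (4:ℝ) ^ 2 ≤ x ^ 2 := pow_le_pow_left₀ (by norm_num) hx4 2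
      calc (2:ℝ) ^ 4 = 4 ^ 2 := by norm_num
        _ ≤ x ^ 2 := e3
    calc (2 / x : ℝ) ^ V' = ((2 / x : ℝ) ^ 4) ^ (G * δ ^ 2) := by rw [hV', pow_mul]
      _ ≤ Real.exp (-(2 * Real.log x)) ^ (G * δ ^ 2) := pow_le_pow_left₀ (by positivity) h3 _
      _ = _ := by
          rw [← Real.exp_nat_mul]
          congr 1
          rw [hH]
          push_cast
          ring
  have h4e : (4:ℝ) ≤ Real.exp (4 * Λ) := by
    have := Real.add_one_le_exp (4 * Λ)
    linarith
  have hBΛ : Real.exp B ≤ Real.exp (1 * Λ) := Real.exp_le_exp.mpr (by linarith)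
  have hZΛ : Z ≤ Real.exp (1 * Λ) := hZ.trans hBΛ
  have hεb : ε ≤ Real.exp (-(2 * H)) * Real.exp ((5 + E + C3) * Λ) := by
    rw [hε, div_eq_mul_inv, ← Real.exp_neg]
    have h5 : 4 * N * Z ≤ Real.exp ((5 + E + C3) * Λ) := by
      calc 4 * N * Z ≤ Real.exp (4 * Λ) * Real.exp (E * Λ) * Real.exp (1 * Λ) := by
            gcongr
        _ = Real.exp ((5 + E) * Λ) := by rw [← Real.exp_add, ← Real.exp_add]; ring_nf
        _ ≤ _ := Real.exp_le_exp.mpr (mul_le_mul_of_nonneg_right (by linarith) hΛ0)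
    calc _ ≤ Real.exp ((5 + E + C3) * Λ) * Real.exp (-(2 * H)) :=
          mul_le_mul_of_nonneg_right h5 (Real.exp_pos _).le
      _ = _ := by ring
  have hYbb : N * Real.exp B * Yb ≤ Real.exp ((5 + E + C3) * Λ) := by
    calc N * Real.exp B * Yb ≤ Real.exp (E * Λ) * Real.exp (1 * Λ) *
          Real.exp (C3 * Λ) := by gcongr
      _ = Real.exp ((1 + E + C3) * Λ) := by rw [← Real.exp_add, ← Real.exp_add]; ring_nf
      _ ≤ _ := Real.exp_le_exp.mpr (mul_le_mul_of_nonneg_right (by linarith) hΛ0)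
  calc (∏ i, ((τ i).factorial : ℝ)) * (2 ^ r * (ε + r * (2 / x) ^ V' *
        (N * Real.exp B * Yb)))
      ≤ Real.exp (C4 * Λ) * (Real.exp (r * Λ) * (Real.exp (-(2 * H)) *
        Real.exp ((5 + E + C3) * Λ) + r * Real.exp (-(2 * H)) *
        Real.exp ((5 + E + C3) * Λ))) := by gcongr
    _ = Real.exp (C4 * Λ) * (Real.exp (r * Λ) * (Real.exp (-(2 * H)) *
        Real.exp ((5 + E + C3) * Λ) * (1 + r))) := by ring
    _ ≤ Real.exp (C4 * Λ) * (Real.exp (r * Λ) * (Real.exp (-(2 * H)) *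
        Real.exp ((5 + E + C3) * Λ) * Real.exp (r * Λ))) := by gcongr
    _ = Real.exp (-(2 * H) + (C3 + C4 + E + (2 * r + 5)) * Λ) := by
        rw [← Real.exp_add, ← Real.exp_add, ← Real.exp_add, ← Real.exp_add]
        ring_nf
    _ ≤ Real.exp (-H) := by
        refine Real.exp_le_exp.mpr ?_
        have h6 : (C3 + C4 + E + (2 * r + 5)) * Λ ≤ C5 * Λ :=
          mul_le_mul_of_nonneg_right (by rw [hC5]; linarith) hΛ0
        linarith

end Pool.Agent.H64.PKER
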